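import Pool.Agent.Helper95.HS.Stmts
import Pool.Agent.Helper32.LN.VIR

/-!
# Row VIRX: lower bound of the virial of a localized field, with explicit powers of `d`
-/

set_option autoImplicit false

namespace Pool.Agent.Helper32.HS

open MeasureTheory Filter Pool.Agent.Helper95.PW Pool.Agent.Helper95.LN Pool.Agent.Helper95.CF
  Pool.Agent.Helper95.HS Pool.Agent.Helper32.LN

/-- the own nucleus, with the sharp constant -/
theorem own_sharp {n M : ℕ} {d A : ℝ} (hd : 0 < d) (hA : 0 ≤ A) {X : Fin M → R3}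
    (hX : Sep X d) {Z : Fin M → ℝ} {g : R3 → ℝ} (x : Cf n)
    (hx : ∀ k j, nr (x k - X j) ≠ 0) (hZ : ∀ j, Z j = 1)
    (h0 : ∀ i y, (∀ j, d ≤ nr (y - X j)) → pd i g y = 0) (h1 : ∀ i y, |pd i g y| ≤ A)
    (hin : ∀ j y, nr (y - X j) < 7 / 10 * d → ∑ i, pd i g y * (y i - X j i) ≤ nr (y - X j))
    (k : Fin n) (i : Fin M) :
    io d X x k i * (Z i * pf g X x k i) ≤
      (if nr (x k - X i) < d then 1 / nr (x k - X i) ^ 2 else 0) +
        7 * A / d ^ 2 * io d X x k i := by
  have hio := io_nonneg d X x k i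
  have hio1 := io_le d X x k i
  rw [hZ i, one_mul]
  have hR : 0 ≤ (if nr (x k - X i) < d then 1 / nr (x k - X i) ^ 2 else (0 : ℝ)) := by
    split_ifs <;> positivity
  have hR2 : 0 ≤ 7 * A / d ^ 2 * io d X x k i := by positivity
  rcases io_pd hd hX x h0 k i with h | h | h
  · have : pf g X x k i = 0 := by
      unfold pf
      simp [h]
    rw [this, mul_zero]
    linarith
  · rw [h, zero_mul, mul_zero, add_zero]
    exact hR
  · rw [if_pos h]
    have hr : 0 < nr (x k - X i) := lt_of_le_of_ne (vr_nonneg _) (Ne.symm (hx k i))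
    rcases lt_or_ge (nr (x k - X i)) (7 / 10 * d) with hc | hc
    · have h4 : pf g X x k i ≤ 1 / nr (x k - X i) ^ 2 := by
        unfold pf
        rw [div_le_div_iff₀ (by positivity) (by positivity)]
        have := hin i (x k) hc
        calc (∑ m, pd m g (x k) * (x k m - X i m)) * nr (x k - X i) ^ 2
            ≤ nr (x k - X i) * nr (x k - X i) ^ 2 :=
              mul_le_mul_of_nonneg_right this (by positivity)
          _ = 1 * nr (x k - X i) ^ 3 := by ring
      have h5 : 0 ≤ 1 / nr (x k - X i) ^ 2 := by positivity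
      calc io d X x k i * pf g X x k i ≤ io d X x k i * (1 / nr (x k - X i) ^ 2) :=
            mul_le_mul_of_nonneg_left h4 hio
        _ ≤ 1 * (1 / nr (x k - X i) ^ 2) := mul_le_mul_of_nonneg_right hio1 h5
        _ ≤ _ := by linarith
    · have h2 : ∑ m, pd m g (x k) * (x k m - X i m) ≤ 3 * A * nr (x k - X i) := by
        have h3 : ∀ m, pd m g (x k) * (x k m - X i m) ≤ A * nr (x k - X i) := by
          intro m
          refine (le_abs_self _).trans ?_
          rw [abs_mul]
          exact mul_le_mul (h1 m _) (vr_coord (x k - X i) m) (abs_nonneg _) hA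
        rw [Fin.sum_univ_three]
        have a0 := h3 0
        have a1 := h3 1
        have a2 := h3 2
        linarith
      have h4 : pf g X x k i ≤ 7 * A / d ^ 2 := by
        unfold pf
        rw [div_le_div_iff₀ (by positivity) (by positivity)]
        have h5 : (7 / 10 * d) ^ 2 ≤ nr (x k - X i) ^ 2 := pow_le_pow_left₀ (by positivity) hc 2
        have h6 : 3 * d ^ 2 ≤ 7 * nr (x k - X i) ^ 2 := by nlinarith [sq_nonneg d]
        calc (∑ m, pd m g (x k) * (x k m - X i m)) * d ^ 2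
            ≤ (3 * A * nr (x k - X i)) * d ^ 2 := mul_le_mul_of_nonneg_right h2 (by positivity)
          _ = (A * nr (x k - X i)) * (3 * d ^ 2) := by ring
          _ ≤ (A * nr (x k - X i)) * (7 * nr (x k - X i) ^ 2) :=
              mul_le_mul_of_nonneg_left h6 (by positivity)
          _ = 7 * A * nr (x k - X i) ^ 3 := by ring
      have h7 : 0 ≤ 1 / nr (x k - X i) ^ 2 := by positivity
      have h8 := mul_le_mul_of_nonneg_left h4 hio
      linarith [mul_comm (io d X x k i) (7 * A / d ^ 2)]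

theorem VIRX (hNB : ST_NBX) (hFF : ST_FFX) (hKK : ST_KK) : ST_VIRX := by
  obtain ⟨C2, hC2, hNB⟩ := hNB
  obtain ⟨C3, hC3, hFF⟩ := hFF
  refine ⟨8 + 16 * C2 + 3 / 2 * (C2 + C3), by positivity, ?_⟩
  intro d A n M X Z g x hd1 hA1 hX hN hZ hg h0 h1 hH hin hD
  obtain ⟨hD1, hD2⟩ := hD
  have hd : 0 < d := by linarith
  have hA : 0 ≤ A := by linarith
  have hAd : 0 ≤ A / d := by positivity
  set S : ℝ := ∑ k, near2 X d (x k) with hS
  have hDn : 0 ≤ Dn (d / 8) X Z x := vr_Dn_nonneg _ _ _ _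
  have hRem : 0 ≤ Rem (d / 8) x := by
    unfold Rem
    refine Finset.sum_nonneg fun k _ => Finset.sum_nonneg fun l _ => ?_
    split_ifs with h
    · have := (hKK (d / 8) (x k - x l) (by positivity)).2.1 (hD1 k l h.ne)
      linarith
    · exact le_rfl
  have hMn : (M : ℝ) = n := by
    rw [← hN.2]
    simp [hZ]
  have hn0 : (0 : ℝ) ≤ n := Nat.cast_nonneg n
  -- the main lower bound
  obtain ⟨e, he1, he2⟩ := hFF d n M X Z x hd1 hX hZ
  have hnb := hNB d n M X Z x hd1 hX hZ
  rw [hMn] at he2 hnb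
  have hmain : -(3 * A * ∑ i, e i * cnt X (3 / 2 * d) x i) -
      A / d * (Rem (d / 8) x + 16 / d * ∑ i, cnt X (3 / 2 * d) x i ^ 2) -
        (S + 7 * A / d ^ 2 * n) ≤ 2 * Vir X Z g x := by
    rw [vir_eq]
    have e1 : ∑ k, ((∑ l, qf g x k l) - ∑ j, Z j * pf g X x k j) =
        ∑ i, ∑ k, ∑ l, io d X x k i * io d X x l i * qf g x k l +
        ∑ i, ∑ k, io d X x k i * ∑ m, pd m g (x k) * farE d X Z x i m (x k) -
        ∑ k, ∑ i, io d X x k i * (Z i * pf g X x k i) := by
      rw [Finset.sum_comm (f := fun k i => io d X x k i * (Z i * pf g X x k i)),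
        ← Finset.sum_add_distrib, ← Finset.sum_sub_distrib]
      rw [Finset.sum_congr rfl fun k _ => io_insert hd hX x h0 Z k, Finset.sum_comm]
      refine Finset.sum_congr rfl fun i _ => ?_
      rw [← Finset.sum_add_distrib, ← Finset.sum_sub_distrib]
      refine Finset.sum_congr rfl fun k _ => ?_
      rw [force_eq d X Z g x k i]
      have e2 : ∑ l, io d X x k i * io d X x l i * qf g x k l =
          io d X x k i * ∑ l, io d X x l i * qf g x k l := by
        rw [Finset.mul_sum]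
        exact Finset.sum_congr rfl fun l _ => by ring
      rw [e2]
      ring
    rw [e1]
    have a1 := near_bound hd hAd hKK hX hg hH x hD1
    have a2 : -(3 * A * ∑ i, e i * cnt X (3 / 2 * d) x i) ≤
        ∑ i, ∑ k, io d X x k i * ∑ m, pd m g (x k) * farE d X Z x i m (x k) := by
      rw [Finset.mul_sum, ← Finset.sum_neg_distrib]
      refine Finset.sum_le_sum fun i _ => ?_
      rw [cnt_eq, ← mul_assoc, Finset.mul_sum, ← Finset.sum_neg_distrib]
      exact Finset.sum_le_sum fun k _ => far_bound hd hA hX x h0 h1 he1 k i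
    have a3 : ∑ k, ∑ i, io d X x k i * (Z i * pf g X x k i) ≤ S + 7 * A / d ^ 2 * n := by
      have b1 : ∀ k, ∑ i, io d X x k i * (Z i * pf g X x k i) ≤
          near2 X d (x k) + 7 * A / d ^ 2 := by
        intro k
        have b2 : ∑ i, io d X x k i * (Z i * pf g X x k i) ≤
            ∑ i, ((if nr (x k - X i) < d then 1 / nr (x k - X i) ^ 2 else 0) +
              7 * A / d ^ 2 * io d X x k i) :=
          Finset.sum_le_sum fun i _ => own_sharp hd hA hX x hD2 hZ h0 h1 hin k i
        rw [Finset.sum_add_distrib, ← Finset.mul_sum] at b2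
        have b3 : 7 * A / d ^ 2 * ∑ i, io d X x k i ≤ 7 * A / d ^ 2 * 1 :=
          mul_le_mul_of_nonneg_left (io_sum_le hd hX x k) (by positivity)
        have b4 : near2 X d (x k) =
          ∑ i, (if nr (x k - X i) < d then 1 / nr (x k - X i) ^ 2 else 0) := rfl
        linarith
      calc ∑ k, ∑ i, io d X x k i * (Z i * pf g X x k i)
          ≤ ∑ k, (near2 X d (x k) + 7 * A / d ^ 2) := Finset.sum_le_sum fun k _ => b1 k
        _ = S + 7 * A / d ^ 2 * n := by
            rw [Finset.sum_add_distrib, hS]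
            simp
            ring
    linarith
  -- the products `e i * cnt i`
  set P : ℝ := ∑ i, e i ^ 2 with hP
  set Q : ℝ := ∑ i, cnt X (3 / 2 * d) x i ^ 2 with hQ
  have hcs : ∑ i, e i * cnt X (3 / 2 * d) x i ≤ 1 / 2 * (d ^ 2 * P + Q / d ^ 2) := by
    rw [hP, hQ, Finset.mul_sum, Finset.sum_div, ← Finset.sum_add_distrib, Finset.mul_sum]
    refine Finset.sum_le_sum fun i _ => ?_
    have h2 : e i * cnt X (3 / 2 * d) x i = (d * e i) * (cnt X (3 / 2 * d) x i / d) := by
      field_simp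
    have h3 : d ^ 2 * e i ^ 2 + cnt X (3 / 2 * d) x i ^ 2 / d ^ 2 =
        (d * e i) ^ 2 + (cnt X (3 / 2 * d) x i / d) ^ 2 := by
      rw [mul_pow, div_pow]
    rw [h2, h3]
    nlinarith [sq_nonneg (d * e i - cnt X (3 / 2 * d) x i / d)]
  have hD0 : 0 ≤ Dn (d / 8) X Z x / d := by positivity
  have hnD : 0 ≤ (n : ℝ) / d := by positivity
  have hid : 1 / d ≤ 1 := by
    rw [div_le_one hd]
    exact hd1
  have hQd : Q / d ≤ C2 * (n + Dn (d / 8) X Z x) := by
    rw [div_le_iff₀ hd]
    refine hnb.trans ?_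
    rw [mul_assoc]
    apply mul_le_mul_of_nonneg_left _ hC2.le
    nlinarith
  have hQd2 : Q / d ^ 2 ≤ C2 * (n + Dn (d / 8) X Z x) / d := by
    have : Q / d ^ 2 = (Q / d) / d := by
      rw [div_div, pow_two]
    rw [this]
    exact div_le_div_of_nonneg_right hQd hd.le
  have hPd : d ^ 2 * P ≤ C3 * (n + Dn (d / 8) X Z x) / d := by
    have k1 := mul_le_mul_of_nonneg_left he2 (by positivity : 0 ≤ d ^ 2)
    refine k1.trans ?_
    rw [le_div_iff₀ hd]
    have k2 : d ^ 2 * (C3 * ((n : ℝ) / d ^ 4 + Dn (d / 8) X Z x / d ^ 3)) * d =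
        C3 * ((n : ℝ) / d + Dn (d / 8) X Z x) := by
      field_simp
    rw [k2]
    apply mul_le_mul_of_nonneg_left _ hC3.le
    have : (n : ℝ) / d ≤ n := div_le_self hn0 hd1
    linarith
  -- conclusion
  set W : ℝ := n + Dn (d / 8) X Z x with hW
  have hW0 : 0 ≤ W := by positivity
  have c1 : 3 * A * ∑ i, e i * cnt X (3 / 2 * d) x i ≤ A / d * (3 / 2 * (C2 + C3) * W) := by
    have k1 : ∑ i, e i * cnt X (3 / 2 * d) x i ≤ 1 / 2 * ((C2 + C3) * W / d) := by
      refine hcs.trans ?_
      apply mul_le_mul_of_nonneg_left _ (by norm_num)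
      have : (C2 + C3) * W / d = C3 * W / d + C2 * W / d := by ring
      rw [this]
      exact add_le_add hPd hQd2
    have k2 := mul_le_mul_of_nonneg_left k1 (by positivity : 0 ≤ 3 * A)
    refine k2.trans (le_of_eq ?_)
    ring
  have c2 : A / d * (Rem (d / 8) x + 16 / d * Q) ≤ A / d * (Rem (d / 8) x + 16 * C2 * W) := by
    apply mul_le_mul_of_nonneg_left _ hAd
    have : 16 / d * Q = 16 * (Q / d) := by ring
    rw [this]
    linarith
  have c3 : 7 * A / d ^ 2 * n ≤ A / d * (7 * W) := by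
    have k1 : 7 * A / d ^ 2 * n = A / d * (7 * (n / d)) := by
      field_simp
    rw [k1]
    apply mul_le_mul_of_nonneg_left _ hAd
    have : (n : ℝ) / d ≤ n := div_le_self hn0 hd1
    linarith
  have c4 : (8 + 16 * C2 + 3 / 2 * (C2 + C3)) * A / d *
      (n + Dn (d / 8) X Z x + Rem (d / 8) x) =
      A / d * ((8 + 16 * C2 + 3 / 2 * (C2 + C3)) * (W + Rem (d / 8) x)) := by
    rw [hW]
    ring
  rw [c4]
  have c5 : Rem (d / 8) x + 16 * C2 * W + 3 / 2 * (C2 + C3) * W + 7 * W ≤
      (8 + 16 * C2 + 3 / 2 * (C2 + C3)) * (W + Rem (d / 8) x) := by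
    have k1 : 0 ≤ (7 + 16 * C2 + 3 / 2 * (C2 + C3)) * Rem (d / 8) x := by positivity
    nlinarith
  have c6 := mul_le_mul_of_nonneg_left c5 hAd
  have c7 : 0 ≤ A / d * ((8 + 16 * C2 + 3 / 2 * (C2 + C3)) * (W + Rem (d / 8) x)) := by
    positivity
  have c8 : A / d * (Rem (d / 8) x + 16 * C2 * W + 3 / 2 * (C2 + C3) * W + 7 * W) =
      A / d * (Rem (d / 8) x + 16 * C2 * W) + A / d * (3 / 2 * (C2 + C3) * W) +
        A / d * (7 * W) := by ring
  rw [c8] at c6
  linarith

end Pool.Agent.Helper32.HS
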